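import Pool.Agent.W538.TwoNum.Seg5

/-!
The equality of the two-number and the total mod 2 Betti number fails: the manifold `M` of unit
decomposable tensors `x ⊗ y ⊗ z` in `ℝ³ ⊗ ℝ³ ⊗ ℝ³`, which is the quotient of `S² × S² × S²` by the
group of the sign changes of an even number of factors, is a compact connected symmetric space of
dimension 6 with two-number 8 and with total mod 2 Betti number at least 12.
-/

namespace Pool.Agent.Results.MP_efd99a_gt.NotEqual

open Pool.Agent.Helper381 Pool.Agent.W538.TwoNum Bundle Manifold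
open scoped ContDiff

/-- The metric space `M` is a smooth Riemannian manifold modelled on the vector space `E`, with
its Riemannian distance. -/
def IsRiemannian (E : Type) [NormedAddCommGroup E] [NormedSpace ℝ E] (M : Type)
    [MetricSpace M] : Prop :=
  ∃ (_ : ChartedSpace E M) (_ : IsManifold 𝓘(ℝ, E) ∞ M)
    (_ : RiemannianBundle (fun x : M => TangentSpace 𝓘(ℝ, E) x))
    (_ : IsContMDiffRiemannianBundle 𝓘(ℝ, E) ∞ E (fun x : M => TangentSpace 𝓘(ℝ, E) x)),
    IsRiemannianManifold 𝓘(ℝ, E) M

/-- There is a compact connected Riemannian symmetric space `M` of dimension `6` whose two-number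
is `8` and whose total mod `2` Betti number is (finite and) at least `12`. In particular the
two-number of `M` is not equal to its total mod `2` Betti number. -/
theorem result : ∃ (M : Type) (_ : MetricSpace M), CompactSpace M ∧ ConnectedSpace M ∧
    IsRiemannian (EuclideanSpace ℝ (Fin 6)) M ∧ IsSymmetric M ∧
    twoNumber M = 8 ∧ ∃ b : ℕ, totalBetti (ZMod 2) M = b ∧ 12 ≤ b := by
  refine ⟨MM, instMet, inferInstance, inferInstance, ⟨inferInstance, inferInstance,
    Pool.Agent.W538.Sub.rb dd, Pool.Agent.W538.Sub.ccb dd, Pool.Agent.W538.Sub.isRiem dd⟩,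
    isSymmetric_MM, twoNumber_eq, ?_⟩
  obtain ⟨R, G⟩ := geo
  obtain ⟨h1, N, h2⟩ := G.betti_finite (ZMod 2)
  refine ⟨_, totalBetti_eq N h1 h2, ?_⟩
  have h := twelve_le
  rw [totalBetti_eq N h1 h2] at h
  exact_mod_cast h

end Pool.Agent.Results.MP_efd99a_gt.NotEqual
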